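import Pool.Agent.H976Z.PropT.Main

/-- There is a maximal property (T) subalgebra of the Borel algebra of the Cantor space
that fails the Grothendieck property. -/
theorem Pool.Agent.Results.MP_54cd88_an.AMaxNotGrothendieck.result :
    ∃ B : BooleanSubalgebra (Set Pool.Agent.H976Z.PropT.Cantor),
      Maximal Pool.Agent.H976Z.PropT.HasT B ∧ ¬ Pool.Agent.H976Z.PropT.HasGrothendieck B :=
  Pool.Agent.H976Z.PropT.main
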